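import Pool.Agent.H408Z.PR.Proc

/-!
# The lower bound on the coding radius
-/

set_option autoImplicit false

namespace Pool.Agent.H408Z.PR

open MeasureTheory ProbabilityTheory Measure

open scoped ENNReal

/-- The coding radius of `φ` at `y`: the least `r` such that `φ y' 0 = φ y 0` for every `y'` that
agrees with `y` on `[-r, r]`, and `∞` if there is no such `r`. -/
noncomputable def radius {T S : Type} (φ : (ℤ → T) → ℤ → S) (y : ℤ → T) : ℝ≥0∞ :=
  ⨅ (r : ℕ) (_ : ∀ y' : ℤ → T, (∀ i : ℤ, |i| ≤ r → y' i = y i) → φ y' 0 = φ y 0), (r : ℝ≥0∞)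

variable {T : Type} [MeasurableSpace T]

/-- Hybrid of two configurations. -/
def hyb (D : ℤ → Prop) [DecidablePred D] (p : (ℤ → T) × (ℤ → T)) : ℤ → T :=
  fun i => if D i then p.2 i else p.1 i

theorem meas_hyb (D : ℤ → Prop) [DecidablePred D] : Measurable (hyb (T := T) D) := by
  refine measurable_pi_lambda _ fun i => ?_
  unfold hyb
  split_ifs <;> fun_prop

theorem map_hyb (ν : Measure T) [IsProbabilityMeasure ν] (D : ℤ → Prop) [DecidablePred D] :
    ((infinitePi fun _ : ℤ => ν).prod (infinitePi fun _ : ℤ => ν)).map (hyb D) =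
      infinitePi fun _ : ℤ => ν := by
  refine eq_infinitePi _ fun s t ht => ?_
  have h : hyb D ⁻¹' Set.pi s t =
      Set.pi (s.filter fun i => ¬ D i) t ×ˢ Set.pi (s.filter fun i => D i) t := by
    ext ⟨y, y'⟩
    simp only [Set.mem_preimage, Set.mem_pi, Finset.mem_coe, hyb, Set.mem_prod, Finset.mem_filter]
    constructor
    · intro h
      exact ⟨fun i hi => by simpa [hi.2] using h i hi.1, fun i hi => by simpa [hi.2] using h i hi.1⟩
    · intro h i hi
      split_ifs with h1
      · exact h.2 i ⟨hi, h1⟩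
      · exact h.1 i ⟨hi, h1⟩
  rw [Measure.map_apply (meas_hyb D) (.pi s.countable_toSet fun i _ => ht i), h, prod_prod,
    infinitePi_pi _ fun i _ => ht i, infinitePi_pi _ fun i _ => ht i, mul_comm,
    Finset.prod_filter_mul_prod_filter_not]

/-- Cutting off a configuration outside `[-r, r]`. -/
def cut (r : ℕ) (z : T) (y : ℤ → T) : ℤ → T := fun i => if |i| ≤ r then y i else z

theorem meas_cut (r : ℕ) (z : T) : Measurable (cut r z) := by
  refine measurable_pi_lambda _ fun i => ?_
  unfold cut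
  split_ifs <;> fun_prop

/-- Shift. -/
def sh (k : ℕ) (y : ℤ → T) : ℤ → T := fun i => y (i + k)

theorem meas_sh (k : ℕ) : Measurable (sh (T := T) k) := by
  unfold sh
  fun_prop

theorem map_sh (ν : Measure T) [IsProbabilityMeasure ν] (k : ℕ) :
    (infinitePi fun _ : ℤ => ν).map (sh k) = infinitePi fun _ : ℤ => ν :=
  map_infinitePi_infinitePi_of_inj (P := fun _ : ℤ => ν) (f := fun i : ℤ => i + k)
    (add_left_injective _)

theorem tail_lower (ν : Measure T) [IsProbabilityMeasure ν] {φ : (ℤ → T) → ℤ → S}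
    (hφ : Measurable φ) (heq : ∀ y, φ (fun i => y (i + 1)) = fun i => φ y (i + 1))
    (hlaw : (infinitePi fun _ : ℤ => ν).map φ = mu) (z : T) (r : ℕ) :
    1 / 100 ≤ (4 * r + 2) * (infinitePi fun _ : ℤ => ν).real {y | φ (cut r z y) 0 ≠ φ y 0} := by
  set P := infinitePi fun _ : ℤ => ν with hP
  set G : Set (ℤ → T) := {y | φ (cut r z y) 0 ≠ φ y 0} with hG
  have mG : MeasurableSet G :=
    (measurableSet_eq_fun ((measurable_pi_apply 0).comp (hφ.comp (meas_cut r z)))
      ((measurable_pi_apply 0).comp hφ)).compl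
  have h1 : ∀ (k : ℕ) y, φ (sh k y) = fun i => φ y (i + k) := by
    intro k
    induction k with
    | zero =>
      intro y
      have : sh 0 y = y := by
        funext i
        simp [sh]
      simp [this]
    | succ k ih =>
      intro y
      have : sh (k + 1) y = fun i => sh k y (i + 1) := by
        funext i
        simp only [sh]
        congr 1
        push_cast
        ring
      rw [this, heq, ih]
      funext i
      simp only [Nat.cast_add, Nat.cast_one]
      rw [show i + 1 + (k : ℤ) = i + (k + 1) by ring]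
  set L := 4 * r + 1 with hL
  let V : (ℤ → T) → W L := fun y t => φ (cut r z (sh t y)) 0 L t
  have hV : ∀ (t : Fin (L + 1)) (y y' : ℤ → T),
      (∀ i : ℤ, (t : ℕ) - r ≤ i → i ≤ (t : ℕ) + r → y i = y' i) → V y t = V y' t := by
    intro t y y' h
    have : cut r z (sh t y) = cut r z (sh t y') := by
      funext i
      simp only [cut, sh]
      split_ifs with h2
      · rw [abs_le] at h2
        exact h _ (by omega) (by omega)
      · rfl
    simp only [V, this]
  let Bad : Set (ℤ → T) := (⋃ k ∈ Finset.range (L + 1), sh k ⁻¹' G) ∪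
    φ ⁻¹' (gad L ⁻¹' {w | dfc w ≠ 0})
  have mBad : MeasurableSet Bad :=
    (Finset.measurableSet_biUnion _ fun k _ => meas_sh k mG).union
      (hφ (meas_gad L MeasurableSet.of_discrete))
  have hpre : ∀ s : Set (W L), P (φ ⁻¹' (gad L ⁻¹' s)) = gam L s := fun s => by
    rw [← map_gad, ← hlaw, Measure.map_apply (meas_gad L) MeasurableSet.of_discrete,
      Measure.map_apply hφ (meas_gad L MeasurableSet.of_discrete)]
  have hBad : P.real Bad ≤ (4 * r + 2) * P.real G := by
    refine (measureReal_union_le _ _).trans ?_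
    have a1 : P.real (φ ⁻¹' (gad L ⁻¹' {w | dfc w ≠ 0})) = 0 := by
      rw [measureReal_def, hpre, gam_bad, ENNReal.toReal_zero]
    have a2 : ∀ k, P.real (sh k ⁻¹' G) = P.real G := fun k => by
      rw [measureReal_def, ← Measure.map_apply (meas_sh k) mG, map_sh, measureReal_def]
    rw [a1, add_zero]
    refine (measureReal_biUnion_finset_le _ _).trans ?_
    simp only [a2, Finset.sum_const, Finset.card_range, nsmul_eq_mul, hL]
    push_cast
    exact le_of_eq (by ring)
  have hgood : ∀ y, y ∉ Bad → V y = gad L (φ y) ∧ dfc (V y) = 0 := by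
    intro y hy
    have a1 : V y = gad L (φ y) := by
      funext t
      have a2 : sh t y ∉ G := fun h => hy (Or.inl (Set.mem_biUnion
        (Finset.mem_coe.2 (Finset.mem_range.2 t.2)) h))
      have a3 : φ (cut r z (sh t y)) 0 = φ (sh t y) 0 := not_not.1 a2
      simp only [V, a3, h1, gad, zero_add]
    refine ⟨a1, ?_⟩
    rw [a1]
    by_contra h
    exact hy (Or.inr h)
  let E : ZMod 2 → Set (ℤ → T) := fun a =>
    φ ⁻¹' (gad L ⁻¹' {w | (w 0).1 = a ∧ (w (Fin.last L)).1 = a}) \ Bad
  have hE : ∀ a, 1 / 4 - P.real Bad ≤ P.real (E a) := fun a => by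
    have a1 : P.real (φ ⁻¹' (gad L ⁻¹' {w | (w 0).1 = a ∧ (w (Fin.last L)).1 = a})) = 1 / 4 := by
      rw [measureReal_def, hpre, gam_set (by omega)]
      simp
    rw [← a1]
    exact le_measureReal_sdiff
  let D1 : ℤ → Prop := fun i => i ≤ r
  let D2 : ℤ → Prop := fun i => 3 * r + 1 ≤ i
  let D3 : ℤ → Prop := fun i => i ≤ r ∨ 3 * r + 1 ≤ i
  have hsub : E 0 ×ˢ E 1 ⊆ hyb D1 ⁻¹' Bad ∪ hyb D2 ⁻¹' Bad ∪ hyb D3 ⁻¹' Bad := by
    rintro ⟨y, y'⟩ ⟨⟨⟨x0, y0⟩, b0⟩, ⟨⟨x1, y1⟩, b1⟩⟩
    by_contra hc
    simp only [Set.mem_union, Set.mem_preimage, not_or] at hc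
    obtain ⟨⟨c1, c2⟩, c3⟩ := hc
    obtain ⟨e0, d0⟩ := hgood y b0
    obtain ⟨e1, -⟩ := hgood y' b1
    have d1 := (hgood _ c1).2
    have d2 := (hgood _ c2).2
    have d3 := (hgood _ c3).2
    simp only at x0 y0 x1 y1
    rw [← e0] at x0 y0
    rw [← e1] at x1 y1
    have z0 : ((0 : Fin (L + 1)) : ℕ) = 0 := rfl
    have zl : ((Fin.last L : Fin (L + 1)) : ℕ) = 4 * r + 1 := rfl
    have p1 : V (hyb D1 (y, y')) (Fin.last L) = V y (Fin.last L) :=
      hV _ _ _ fun i a b => if_neg (by simp only [D1]; rw [zl] at a; push_cast at a; omega)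
    have p2 : V (hyb D2 (y, y')) 0 = V y 0 :=
      hV _ _ _ fun i a b => if_neg (by simp only [D2]; rw [z0] at b; push_cast at b; omega)
    have p3 : V (hyb D3 (y, y')) 0 = V y' 0 :=
      hV _ _ _ fun i a b => if_pos (by simp only [D3]; rw [z0] at b; push_cast at b; omega)
    have p4 : V (hyb D3 (y, y')) (Fin.last L) = V y' (Fin.last L) :=
      hV _ _ _ fun i a b => if_pos (by simp only [D3]; rw [zl] at a; push_cast at a; omega)
    have q : ∑ t, (V y t).2 + ∑ t, (V (hyb D3 (y, y')) t).2 =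
        ∑ t, (V (hyb D1 (y, y')) t).2 + ∑ t, (V (hyb D2 (y, y')) t).2 := by
      rw [← Finset.sum_add_distrib, ← Finset.sum_add_distrib]
      refine Finset.sum_congr rfl fun t _ => ?_
      by_cases ht : (t : ℕ) ≤ 2 * r
      · have a1 : V (hyb D2 (y, y')) t = V y t :=
          hV _ _ _ fun i a b => if_neg (by simp only [D2]; omega)
        have a2 : V (hyb D3 (y, y')) t = V (hyb D1 (y, y')) t :=
          hV _ _ _ fun i a b => if_congr (by simp only [D3, D1]; omega) rfl rfl
        rw [a1, a2, add_comm]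
      · have a1 : V (hyb D1 (y, y')) t = V y t :=
          hV _ _ _ fun i a b => if_neg (by simp only [D1]; omega)
        have a2 : V (hyb D3 (y, y')) t = V (hyb D2 (y, y')) t :=
          hV _ _ _ fun i a b => if_congr (by simp only [D3, D2]; omega) rfl rfl
        rw [a1, a2]
    simp only [dfc, sub_eq_zero] at d0 d1 d2 d3
    rw [d0, d1, d2, d3, p1, p2, p3, p4, x0, y0, x1, y1] at q
    simp at q
  have hh : ∀ (D : ℤ → Prop) [DecidablePred D], (P.prod P).real (hyb D ⁻¹' Bad) = P.real Bad :=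
    fun D _ => by
      rw [measureReal_def, ← Measure.map_apply (meas_hyb D) mBad, map_hyb, measureReal_def]
  have hfin : P.real (E 0) * P.real (E 1) ≤ 3 * P.real Bad := by
    rw [← measureReal_prod_prod]
    refine (measureReal_mono hsub).trans ((measureReal_union_le _ _).trans ?_)
    have := measureReal_union_le (μ := P.prod P) (hyb D1 ⁻¹' Bad) (hyb D2 ⁻¹' Bad)
    rw [hh, hh] at this
    rw [hh]
    linarith
  by_contra hc
  have a1 : P.real Bad < 1 / 100 := hBad.trans_lt (not_le.1 hc)
  have a2 := hE 0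
  have a3 := hE 1
  nlinarith

theorem radius_top (ν : Measure T) [IsProbabilityMeasure ν] {φ : (ℤ → T) → ℤ → S}
    (hφ : Measurable φ) (heq : ∀ y, φ (fun i => y (i + 1)) = fun i => φ y (i + 1))
    (hlaw : (infinitePi fun _ : ℤ => ν).map φ = mu) :
    ∫⁻ y, radius φ y ∂(infinitePi fun _ : ℤ => ν) = ⊤ := by
  obtain ⟨z⟩ := nonempty_of_isProbabilityMeasure ν
  set P := infinitePi fun _ : ℤ => ν with hP
  let G : ℕ → Set (ℤ → T) := fun r => {y | φ (cut r z y) 0 ≠ φ y 0}
  have mG : ∀ r, MeasurableSet (G r) := fun r =>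
    (measurableSet_eq_fun ((measurable_pi_apply 0).comp (hφ.comp (meas_cut r z)))
      ((measurable_pi_apply 0).comp hφ)).compl
  have h1 : ∀ y, ∑' r, (G r).indicator (1 : (ℤ → T) → ℝ≥0∞) y ≤ radius φ y := by
    intro y
    refine le_iInf₂ fun r hr => ?_
    rw [tsum_eq_sum (s := Finset.range r) fun n hn => ?_]
    · refine (Finset.sum_le_card_nsmul _ _ 1 fun n _ => Set.indicator_le_self _ _ y).trans ?_
      simp
    · have h2 : y ∉ G n := by
        refine fun h : φ (cut n z y) 0 ≠ φ y 0 => h (hr _ fun i hi => if_pos ?_)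
        have : r ≤ n := not_lt.1 fun h => hn (Finset.mem_range.2 h)
        omega
      exact Set.indicator_of_notMem h2 _
  refine top_unique (le_trans ?_ (lintegral_mono h1))
  rw [lintegral_tsum fun r => (measurable_one.indicator (mG r)).aemeasurable]
  simp only [lintegral_indicator_one (mG _)]
  by_contra hc
  have h2 : Summable fun r => P.real (G r) :=
    ENNReal.summable_toReal fun h => hc (top_le_iff.2 h)
  have h3 : Summable fun r : ℕ => 1 / ((r + 1 : ℕ) : ℝ) := by
    refine Summable.of_nonneg_of_le (fun r => by positivity) (fun r => ?_) (h2.mul_left 400)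
    have a1 := tail_lower ν hφ heq hlaw z r
    have a2 : 0 ≤ P.real (G r) := measureReal_nonneg
    rw [div_le_iff₀ (by positivity)]
    push_cast
    change 1 / 100 ≤ (4 * r + 2) * P.real (G r) at a1
    nlinarith
  exact Real.not_summable_one_div_natCast ((summable_nat_add_iff 1).1 h3)

end Pool.Agent.H408Z.PR
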