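import Mathlib

/-!
# A stationary 1-dependent process carrying a parity constraint on every interval
-/

set_option autoImplicit false

namespace Pool.Agent.H408Z.PR

open MeasureTheory ProbabilityTheory Measure

/-- A setting bit and an output bit. -/
abbrev B : Type := ZMod 2 × ZMod 2

/-- The values of one gadget. -/
abbrev W (L : ℕ) : Type := Fin (L + 1) → B

/-- The state space. -/
abbrev S : Type := (L : ℕ) → W L

/-- The uniform law on `B`. -/
noncomputable def nu : Measure B := uniformOn Set.univ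

instance : IsProbabilityMeasure nu := by unfold nu; infer_instance

theorem nu_single (b : B) : nu {b} = 4⁻¹ := by
  simp [nu, uniformOn_univ]

theorem nu_fst (a : ZMod 2) : nu {b | b.1 = a} = 2⁻¹ := by
  have h : ({b | b.1 = a} : Set B) = {(a, 0)} ∪ {(a, 1)} := by
    ext ⟨x, y⟩
    have : ∀ y : ZMod 2, y = 0 ∨ y = 1 := by decide
    rcases this y with rfl | rfl <;> simp
  rw [h, measure_union (by simp) MeasurableSet.of_discrete, nu_single, nu_single,
    show (4 : ENNReal) = 2 * 2 by norm_num, ENNReal.mul_inv (by simp) (by simp), ← add_mul,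
    ENNReal.inv_two_add_inv_two, one_mul]

/-- The uniform law on `W L`. -/
noncomputable def uu (L : ℕ) : Measure (W L) := infinitePi fun _ => nu

instance (L : ℕ) : IsProbabilityMeasure (uu L) := by unfold uu; infer_instance

/-- The defect of the constraint. -/
def dfc {L : ℕ} (w : W L) : ZMod 2 := ∑ t, (w t).2 - (w 0).1 * (w (Fin.last L)).1

/-- Repair of the constraint at place `s`. -/
def fix {L : ℕ} (s : Fin (L + 1)) (w : W L) : W L :=
  fun t => ((w t).1, (w t).2 - if t = s then dfc w else 0)

theorem dfc_fix {L : ℕ} (s : Fin (L + 1)) (w : W L) : dfc (fix s w) = 0 := by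
  simp only [dfc, fix, Finset.sum_sub_distrib, Finset.sum_ite_eq', Finset.mem_univ, if_true]
  ring

/-- Moving the defect. -/
def mv {L : ℕ} (s : Fin (L + 1)) (w : W L) : W L :=
  fun t => ((w t).1, (w t).2 - (if t = 0 then dfc w else 0) + if t = s then dfc w else 0)

theorem dfc_mv {L : ℕ} (s : Fin (L + 1)) (w : W L) : dfc (mv s w) = dfc w := by
  simp only [dfc, mv, Finset.sum_sub_distrib, Finset.sum_add_distrib, Finset.sum_ite_eq',
    Finset.mem_univ, if_true]
  ring

theorem fix_mv {L : ℕ} (s : Fin (L + 1)) (w : W L) : fix s (mv s w) = fix 0 w := by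
  funext t
  simp only [fix, dfc_mv]
  simp [mv]

theorem mv_inj {L : ℕ} (s : Fin (L + 1)) : Function.Injective (mv s) := by
  intro w w' h
  have h1 : dfc w = dfc w' := by rw [← dfc_mv s w, h, dfc_mv]
  funext t
  have h2 := congrFun h t
  simp only [mv, h1, Prod.mk.injEq, add_left_inj, sub_left_inj] at h2
  exact Prod.ext h2.1 (sub_left_injective (add_right_cancel h2.2))

theorem map_mv {L : ℕ} (s : Fin (L + 1)) : (uu L).map (mv s) = uu L := by
  refine Measure.ext_of_singleton fun w => ?_
  obtain ⟨w', rfl⟩ := Finite.surjective_of_injective (mv_inj s) w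
  rw [Measure.map_apply Measurable.of_discrete MeasurableSet.of_discrete,
    ← Set.image_singleton, Set.preimage_image_eq _ (mv_inj s), Set.image_singleton]
  simp only [uu, infinitePi_singleton_of_fintype, nu_single]

/-- The law of one gadget. -/
noncomputable def gam (L : ℕ) : Measure (W L) := (uu L).map (fix 0)

instance (L : ℕ) : IsProbabilityMeasure (gam L) :=
  isProbabilityMeasure_map Measurable.of_discrete.aemeasurable

theorem map_fix {L : ℕ} (s : Fin (L + 1)) : (uu L).map (fix s) = gam L := by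
  conv_lhs => rw [← map_mv s]
  rw [Measure.map_map Measurable.of_discrete Measurable.of_discrete, gam]
  congr 1
  funext w
  exact fix_mv s w

theorem gam_bad (L : ℕ) : gam L {w | dfc w ≠ 0} = 0 := by
  rw [gam, Measure.map_apply Measurable.of_discrete MeasurableSet.of_discrete]
  simp [dfc_fix]

theorem gam_set {L : ℕ} (hL : L ≠ 0) (a : ZMod 2) :
    gam L {w | (w 0).1 = a ∧ (w (Fin.last L)).1 = a} = 4⁻¹ := by
  have h0 : (0 : Fin (L + 1)) ≠ Fin.last L := fun h => hL (by simpa using (congrArg Fin.val h).symm)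
  rw [gam, Measure.map_apply Measurable.of_discrete MeasurableSet.of_discrete]
  have h1 : fix 0 ⁻¹' {w : W L | (w 0).1 = a ∧ (w (Fin.last L)).1 = a} =
      (fun w : W L => (w 0, w (Fin.last L))) ⁻¹' ({b | b.1 = a} ×ˢ {b | b.1 = a}) := by
    ext w
    simp [fix]
  rw [h1, ← Measure.map_apply Measurable.of_discrete MeasurableSet.of_discrete, uu,
    infinitePi_map_eval_prod h0, prod_prod, nu_fst,
    show (4 : ENNReal) = 2 * 2 by norm_num, ENNReal.mul_inv (by simp) (by simp)]

/-- All gadgets. -/
abbrev Om : Type := (g : ℤ × ℕ) → W g.2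

/-- The process read off the gadgets. -/
def psi (ω : Om) : ℤ → S := fun k L t => ω (k - (t : ℕ), L) t

theorem meas_psi : Measurable psi := by
  unfold psi
  fun_prop

/-- The law of the process. -/
noncomputable def mu : Measure (ℤ → S) := (infinitePi fun g : ℤ × ℕ => gam g.2).map psi

instance : IsProbabilityMeasure mu := isProbabilityMeasure_map meas_psi.aemeasurable

theorem mu_shift : mu.map (fun x i => x (i + 1)) = mu := by
  have h := map_infinitePi_infinitePi_of_inj (P := fun g : ℤ × ℕ => gam g.2)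
    (f := fun g : ℤ × ℕ => (g.1 + 1, g.2)) (fun a b h => by
      simp only [Prod.mk.injEq, add_left_inj] at h
      exact Prod.ext (add_right_cancel h.1) h.2)
  rw [mu, Measure.map_map (by fun_prop) meas_psi]
  conv_rhs => rw [← h]
  rw [Measure.map_map meas_psi (by fun_prop)]
  congr 1
  funext ω k L t
  simp only [psi, Function.comp_apply]
  rw [show k + 1 - ((t : ℕ) : ℤ) = k - (t : ℕ) + 1 by ring]

/-- The gadget on the interval `[0, L]`. -/
def gad (L : ℕ) (x : ℤ → S) : W L := fun t => x (t : ℕ) L t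

theorem meas_gad (L : ℕ) : Measurable (gad L) := by
  unfold gad
  fun_prop

theorem map_gad (L : ℕ) : mu.map (gad L) = gam L := by
  rw [mu, Measure.map_map (meas_gad L) meas_psi,
    ← infinitePi_map_eval (fun g : ℤ × ℕ => gam g.2) (0, L)]
  congr 1
  funext ω t
  simp only [gad, psi, Function.comp_apply]
  rw [sub_self]

open Classical in
/-- Forgetting the values outside `A`. -/
noncomputable def mask (A : Set ℤ) (ω : Om) : Om :=
  fun g t => if g.1 + (t : ℕ) ∈ A then ω g t else 0

theorem mask_indep {A A' : Set ℤ} (h : Disjoint A A') :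
    IndepFun (mask A) (mask A') (infinitePi fun g : ℤ × ℕ => uu g.2) := by
  have h1 := iIndepFun_uncurry_infinitePi (X := fun (g : ℤ × ℕ) (t : Fin (g.2 + 1)) (b : B) => b)
    (fun (g : ℤ × ℕ) (t : Fin (g.2 + 1)) => nu) (fun _ _ => measurable_id)
  rw [iIndepFun_iff_iIndep] at h1
  have h2 := indep_iSup_of_disjoint (fun p => Measurable.comap_le (by fun_prop)) h1
    (S := {p | p.1.1 + (p.2 : ℕ) ∈ A}) (T := {p | p.1.1 + (p.2 : ℕ) ∈ A'})
    (Set.disjoint_left.2 fun p a b => Set.disjoint_left.1 h a b)
  have h3 : ∀ A : Set ℤ, MeasurableSpace.comap (mask A) inferInstance ≤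
      ⨆ p ∈ {p : (g : ℤ × ℕ) × Fin (g.2 + 1) | p.1.1 + (p.2 : ℕ) ∈ A},
        MeasurableSpace.comap (fun ω : Om => ω p.1 p.2) inferInstance := by
    intro A
    refine Measurable.comap_le ?_
    refine @measurable_pi_lambda _ _ _ (_) _ _ fun g => @measurable_pi_lambda _ _ _ (_) _ _ fun t => ?_
    unfold mask
    split_ifs with h
    · exact Measurable.mono (comap_measurable _) (le_iSup₂_of_le ⟨g, t⟩ h le_rfl) le_rfl
    · exact @measurable_const _ _ _ (_) _
  rw [IndepFun_iff_Indep]
  exact indep_of_indep_of_le_right (indep_of_indep_of_le_left h2 (h3 A)) (h3 A')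

theorem connected {A A' : Set ℤ} (h : ∀ i ∈ A, ∀ j ∈ A', 1 < |i - j|) {i : ℤ} {L : ℕ}
    (h1 : ∀ t : Fin (L + 1), i + (t : ℕ) ∈ A ∪ A') (s t : Fin (L + 1)) (hs : i + (s : ℕ) ∈ A) :
    i + (t : ℕ) ∈ A := by
  have key : ∀ n (hn : n < L + 1), (i + n ∈ A ↔ i ∈ A) := by
    intro n
    induction n with
    | zero => simp
    | succ n ih =>
      intro hn
      rw [← ih (by omega)]
      have a1 := h1 ⟨n, by omega⟩
      have a2 := h1 ⟨n + 1, hn⟩
      simp only at a1 a2
      constructor
      · intro b
        refine a1.resolve_right fun c => ?_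
        have := h _ b _ c
        push_cast at this
        simp at this
      · intro b
        refine a2.resolve_right fun c => ?_
        have := h _ b _ c
        push_cast at this
        simp at this
  exact (key t t.2).2 ((key s s.2).1 hs)

theorem mu_indep (A A' : Set ℤ) (h : ∀ i ∈ A, ∀ j ∈ A', 1 < |i - j|) :
    IndepFun (fun (x : ℤ → S) (i : A) => x i) (fun (x : ℤ → S) (j : A') => x j) mu := by
  classical
  let τ : (g : ℤ × ℕ) → Fin (g.2 + 1) := fun g =>
    if h : ∃ t : Fin (g.2 + 1), g.1 + (t : ℕ) ∉ A ∪ A' then h.choose else 0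
  let F : Om → Om := fun ω g => fix (τ g) (ω g)
  have mF : Measurable F := measurable_pi_lambda _ fun g =>
    (Measurable.of_discrete (f := fix (τ g))).comp (measurable_pi_apply g)
  have h1 : (infinitePi fun g : ℤ × ℕ => uu g.2).map F = infinitePi fun g : ℤ × ℕ => gam g.2 := by
    rw [infinitePi_map_pi _ (f := fun g => fix (τ g)) fun g => Measurable.of_discrete]
    simp only [map_fix]
  have h2 : ∀ (C C' : Set ℤ), C ∪ C' = A ∪ A' → (∀ i ∈ C, ∀ j ∈ C', 1 < |i - j|) →
      ∀ ω, ∀ i ∈ C, psi (F ω) i = psi (F (mask C ω)) i := by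
    intro C C' hC hd ω i hi
    funext L t
    have a1 : i - (t : ℕ) + (t : ℕ) ∈ C := by simpa using hi
    simp only [psi, F, fix]
    by_cases a2 : t = τ (i - (t : ℕ), L)
    · have a3 : ¬ ∃ s : Fin (L + 1), i - (t : ℕ) + (s : ℕ) ∉ A ∪ A' := by
        intro a4
        have a5 : τ (i - (t : ℕ), L) = a4.choose := dif_pos a4
        have a6 := a4.choose_spec
        rw [← a5, ← a2, ← hC] at a6
        exact a6 (Or.inl a1)
      have a4 : mask C ω (i - (t : ℕ), L) = ω (i - (t : ℕ), L) := by
        funext s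
        refine if_pos (connected hd (fun s => ?_) t s a1)
        rw [hC]
        by_contra a5
        exact a3 ⟨s, a5⟩
      rw [a4]
    · rw [if_neg a2, if_neg a2]
      have a4 : mask C ω (i - (t : ℕ), L) t = ω (i - (t : ℕ), L) t := if_pos a1
      rw [a4]
  have hd : Disjoint A A' := Set.disjoint_left.2 fun i a b => by simpa using h i a i b
  have mR : ∀ C : Set ℤ, Measurable fun (x : ℤ → S) (i : C) => x i := fun C => by fun_prop
  have h3 := (mask_indep hd).comp ((mR A).comp (meas_psi.comp mF)) ((mR A').comp (meas_psi.comp mF))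
  have h4 : ((fun (x : ℤ → S) (i : A) => x i) ∘ psi ∘ F) ∘ mask A =
      (fun (x : ℤ → S) (i : A) => x i) ∘ psi ∘ F := by
    funext ω i
    exact (h2 A A' rfl h ω i i.2).symm
  have h5 : ((fun (x : ℤ → S) (i : A') => x i) ∘ psi ∘ F) ∘ mask A' =
      (fun (x : ℤ → S) (i : A') => x i) ∘ psi ∘ F := by
    funext ω i
    exact (h2 A' A (Set.union_comm _ _) (fun i a j b => by rw [abs_sub_comm]; exact h j b i a)
      ω i i.2).symm
  rw [h4, h5] at h3
  have h6 : mu = (infinitePi fun g : ℤ × ℕ => uu g.2).map (psi ∘ F) := by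
    rw [mu, ← h1, Measure.map_map meas_psi mF]
  rw [indepFun_iff_map_prod_eq_prod_map_map (mR A).aemeasurable (mR A').aemeasurable, h6,
    Measure.map_map ((mR A).prodMk (mR A')) (meas_psi.comp mF),
    Measure.map_map (mR A) (meas_psi.comp mF), Measure.map_map (mR A') (meas_psi.comp mF)]
  exact (indepFun_iff_map_prod_eq_prod_map_map ((mR A).comp (meas_psi.comp mF)).aemeasurable
    ((mR A').comp (meas_psi.comp mF)).aemeasurable).1 h3

end Pool.Agent.H408Z.PR
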